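import Mathlib
import Pool.Graph.R_seed8.W108.TW.Mellin

/-!
# The completed L-function as a Mellin transform
-/

set_option autoImplicit false

open Complex Filter Topology Set MeasureTheory

namespace Pool.Agent.KS6_29.HF

open Pool.Agent.W108.TW

open scoped ComplexConjugate

/-- the completed L-function of a theta-like series with a functional equation -/
theorem exists_comp {k : ℤ} (hk : 1 ≤ k) {R : ℝ} (hR : 0 < R) {b : ℕ → ℂ} {m C : ℝ}
    (hb0 : b 0 = 0) (hm : 0 ≤ m) (hb : ∀ n : ℕ, 1 ≤ n → ‖b n‖ ≤ C * (n : ℝ) ^ m) {w : ℂ}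
    (hw : ‖w‖ = 1)
    (hfe : ∀ t : ℝ, 0 < t → ∑' n : ℕ, b n * (Real.exp (-(2 * Real.pi * n / R) / t) : ℂ) =
      w * (t : ℂ) ^ k * ∑' n : ℕ, (starRingEnd ℂ) (b n) * (Real.exp (-(2 * Real.pi * n / R) * t) : ℂ)) :
    ∃ Λ : ℂ → ℂ, Differentiable ℂ Λ ∧ (∀ s, Λ (k - s) = w * conj (Λ (conj s))) ∧
      (∀ p q : ℝ, ∃ M : ℝ, ∀ s : ℂ, p ≤ s.re → s.re ≤ q → ‖Λ s‖ ≤ M) ∧
      ∀ s : ℂ, m + 1 < s.re → Λ s = ((R / (2 * Real.pi) : ℝ) : ℂ) ^ s * Gamma s *
        ∑' n : ℕ, b n * (n : ℂ) ^ (-s) := by
  set c : ℝ := 2 * Real.pi / R with hc'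
  have hc : 0 < c := by have := Real.pi_pos; positivity
  have hkr : (1 : ℝ) ≤ k := by exact_mod_cast hk
  have hb' : ∀ n : ℕ, 1 ≤ n → ‖(starRingEnd ℂ) (b n)‖ ≤ C * (n : ℝ) ^ m := by
    intro n hn; rw [RCLike.norm_conj]; exact hb n hn
  have hb0' : (starRingEnd ℂ) (b 0) = 0 := by rw [hb0, map_zero]
  let P : WeakFEPair ℂ :=
    { f := Th b c
      g := Th (fun n => (starRingEnd ℂ) (b n)) c
      k := (k : ℝ)
      ε := w
      f₀ := 0
      g₀ := 0
      hf_int := (continuousOn_Th hb0 hb hc).locallyIntegrableOn measurableSet_Ioi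
      hg_int := (continuousOn_Th hb0' hb' hc).locallyIntegrableOn measurableSet_Ioi
      hk := by linarith
      hε := by intro h; rw [h, norm_zero] at hw; exact zero_ne_one hw
      h_feq := by
        intro x (hx : 0 < x)
        have h := hfe x hx
        rw [smul_eq_mul, Real.rpow_intCast, Complex.ofReal_zpow]
        rw [Th, Th]
        have e1 : ∀ n : ℕ, -(c * n) * (1 / x) = -(2 * Real.pi * n / R) / x := by
          intro n; rw [hc']; ring
        have e2 : ∀ n : ℕ, -(c * n) * x = -(2 * Real.pi * n / R) * x := by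
          intro n; rw [hc']; ring
        simp only [e1, e2]
        exact h
      hf_top := Th_isBigO hb0 hb hc
      hg_top := Th_isBigO hb0' hb' hc }
  have hP : IsStrongFEPair P := ⟨rfl, rfl⟩
  have hΛf : P.Λ = mellin (Th b c) := hP.Λ_eq
  have hΛg : P.symm.Λ = mellin (Th (fun n => (starRingEnd ℂ) (b n)) c) := hP.symm_Λ_eq
  refine ⟨P.Λ, hP.differentiable_Λ, fun s => ?_, fun p q => ?_, fun s hs => ?_⟩
  · have e1 : ((k : ℂ) - s) = (P.k : ℂ) - s := by
      have : (P.k : ℂ) = (k : ℂ) := by simp [P]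
      rw [this]
    have e2 : mellin (Th (fun n => (starRingEnd ℂ) (b n)) c) s =
        (starRingEnd ℂ) (mellin (Th b c) (conj s)) := by
      rw [← mellin_conj, Complex.conj_conj]
      congr 1
      funext t
      exact Th_conj b c t
    rw [e1, P.functional_equation, hΛg, e2, hΛf, smul_eq_mul]
  · have hM := fun s => (hP.hasMellin s).1
    have h1 := (hM (p : ℂ)).norm
    have h2 := (hM (q : ℂ)).norm
    rw [hΛf]
    refine ⟨∫ t in Ioi (0:ℝ), (‖(t : ℂ) ^ ((p : ℂ) - 1) • Th b c t‖ +
      ‖(t : ℂ) ^ ((q : ℂ) - 1) • Th b c t‖), fun s hs1 hs2 => ?_⟩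
    refine norm_integral_le_of_norm_le (h1.add h2) ?_
    filter_upwards [ae_restrict_mem measurableSet_Ioi] with t ht
    have ht0 : 0 < t := ht
    rw [norm_smul, norm_smul, norm_smul, Complex.norm_cpow_eq_rpow_re_of_pos ht0,
      Complex.norm_cpow_eq_rpow_re_of_pos ht0, Complex.norm_cpow_eq_rpow_re_of_pos ht0, ← add_mul]
    refine mul_le_mul_of_nonneg_right ?_ (norm_nonneg _)
    simp only [Complex.sub_re, Complex.ofReal_re, Complex.one_re]
    rcases le_or_gt 1 t with h3 | h3
    · have := Real.rpow_le_rpow_of_exponent_le h3 (by linarith : s.re - 1 ≤ q - 1)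
      have := Real.rpow_nonneg ht0.le (p - 1)
      linarith
    · have := Real.rpow_le_rpow_of_exponent_ge ht0 h3.le (by linarith : p - 1 ≤ s.re - 1)
      have := Real.rpow_nonneg ht0.le (q - 1)
      linarith
  · have hpos : 0 < s.re := by linarith
    have h1 := hasSum_mellin (a := b) (p := fun n : ℕ => c * n) (F := Th b c) (s := s)
      (by
        intro n
        rcases Nat.eq_zero_or_pos n with rfl | hn
        · exact Or.inl hb0
        · right
          have : (0 : ℝ) < n := by exact_mod_cast hn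
          positivity) hpos
      (by
        intro t (ht : 0 < t)
        exact (summable_term hb0 hb hc ht).hasSum)
      (by
        have h2 : Summable (fun n : ℕ => |C| / c ^ s.re * (n : ℝ) ^ (m - s.re)) :=
          (Real.summable_nat_rpow.mpr (by linarith)).mul_left _
        refine Summable.of_nonneg_of_le (fun n => by positivity) (fun n => ?_) h2
        rcases Nat.eq_zero_or_pos n with rfl | hn
        · rw [hb0, norm_zero, zero_div]; positivity
        · have hn' : (0 : ℝ) < n := by exact_mod_cast hn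
          have h3 : ‖b n‖ ≤ |C| * (n : ℝ) ^ m :=
            (hb n hn).trans (mul_le_mul_of_nonneg_right (le_abs_self C) (by positivity))
          rw [Real.mul_rpow hc.le hn'.le, Real.rpow_sub hn', div_mul_div_comm]
          exact div_le_div_of_nonneg_right h3 (by positivity))
    have h2 := h1.tsum_eq
    rw [hΛf, ← h2, ← tsum_mul_left]
    refine tsum_congr (fun n => ?_)
    have h3 : ((R / (2 * Real.pi) : ℝ) : ℂ) = (c : ℂ)⁻¹ := by
      rw [hc', ← Complex.ofReal_inv, inv_div]
    have harg : (c : ℂ).arg ≠ Real.pi := by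
      rw [Complex.arg_ofReal_of_nonneg hc.le]; exact Real.pi_pos.ne
    have hcC : (c : ℂ) ≠ 0 := by exact_mod_cast hc.ne'
    have hcs : (c : ℂ) ^ s ≠ 0 := by
      rw [Complex.cpow_def_of_ne_zero hcC]; exact Complex.exp_ne_zero _
    rw [h3, Complex.inv_cpow _ _ harg]
    rcases Nat.eq_zero_or_pos n with rfl | hn
    · rw [hb0]; simp
    · have hn' : (n : ℂ) ≠ 0 := by exact_mod_cast hn.ne'
      have hnS : (n : ℂ) ^ s ≠ 0 := by
        rw [Complex.cpow_def_of_ne_zero hn']; exact Complex.exp_ne_zero _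
      rw [Complex.ofReal_mul, Complex.mul_cpow_ofReal_nonneg hc.le (Nat.cast_nonneg n),
        Complex.cpow_neg]
      simp only [Complex.ofReal_natCast]
      field_simp

end Pool.Agent.KS6_29.HF
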