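import Mathlib

/-!
# Moments of a log-concave density with a slowly rotating phase

`φ` is a real function on `[b, ∞)` whose derivative satisfies `φ' σ (σ - s) ≤ -(σ - s)² / (4 t)`
(`s` is the place of the maximum).  Then `∫ (σ - s)² exp φ ≤ 4 t ∫ exp φ`, and the same with the
weight `σ - y`.
-/

set_option autoImplicit false

namespace Pool.Agent.KS6_29.HF

open MeasureTheory Set Filter Topology

variable {φ φ' : ℝ → ℝ} {b s y t : ℝ}

/-- The inequality on a finite interval, first moment inequality. -/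
theorem mom_fin (ht : 0 < t) (hbs : b ≤ s) (hφ : ∀ σ, b ≤ σ → HasDerivAt φ (φ' σ) σ)
    (hc : ContinuousOn φ' (Ici b))
    (hconc : ∀ σ, b ≤ σ → φ' σ * (σ - s) ≤ -(σ - s) ^ 2 / (4 * t)) {R : ℝ} (hR : s ≤ R) :
    ∫ σ in b..R, (σ - s) ^ 2 * Real.exp (φ σ) ≤ 4 * t * ∫ σ in b..R, Real.exp (φ σ) := by
  have hbR : b ≤ R := hbs.trans hR
  have hφc : ContinuousOn φ (Icc b R) := fun σ hσ => (hφ σ hσ.1).continuousAt.continuousWithinAt
  have hec : ContinuousOn (fun σ => Real.exp (φ σ)) (Icc b R) := Real.continuous_exp.comp_continuousOn hφc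
  have hcR : ContinuousOn φ' (Icc b R) := hc.mono Icc_subset_Ici_self
  have hi : ∀ f : ℝ → ℝ, ContinuousOn f (Icc b R) → IntervalIntegrable f volume b R := fun f hf =>
    (by rw [← uIcc_of_le hbR] at hf; exact hf.intervalIntegrable)
  have hpoly : ContinuousOn (fun σ : ℝ => σ - s) (Icc b R) := by fun_prop
  have hA : IntervalIntegrable (fun σ => Real.exp (φ σ) + (σ - s) * (Real.exp (φ σ) * φ' σ)) volume b R :=
    hi _ (hec.add (hpoly.mul (hec.mul hcR)))
  have hE : IntervalIntegrable (fun σ => Real.exp (φ σ)) volume b R := hi _ hec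
  have h1 : ∫ σ in b..R, (Real.exp (φ σ) + (σ - s) * (Real.exp (φ σ) * φ' σ)) =
      (R - s) * Real.exp (φ R) - (b - s) * Real.exp (φ b) := by
    apply intervalIntegral.integral_eq_sub_of_hasDerivAt (f := fun σ => (σ - s) * Real.exp (φ σ))
    · intro σ hσ
      rw [uIcc_of_le hbR] at hσ
      have e1 : HasDerivAt (fun σ : ℝ => σ - s) 1 σ := (hasDerivAt_id σ).sub_const s
      have e2 := (hφ σ hσ.1).exp
      have := e1.mul e2
      have e3 : (1 : ℝ) * Real.exp (φ σ) + (σ - s) * (Real.exp (φ σ) * φ' σ) =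
        Real.exp (φ σ) + (σ - s) * (Real.exp (φ σ) * φ' σ) := by ring
      rw [← e3]
      exact this
    · exact hA
  have h2 : ∫ σ in b..R, ((σ - s) ^ 2 * Real.exp (φ σ)) ≤
      ∫ σ in b..R, (4 * t) * (Real.exp (φ σ) - (Real.exp (φ σ) + (σ - s) * (Real.exp (φ σ) * φ' σ))) := by
    apply intervalIntegral.integral_mono_on hbR
    · exact hi _ ((hpoly.pow 2).mul hec)
    · exact (hE.sub hA).const_mul _
    · intro σ hσ
      have := hconc σ hσ.1
      have he := Real.exp_pos (φ σ)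
      have h3 : φ' σ * (σ - s) * (4 * t) ≤ -(σ - s) ^ 2 := by
        rw [le_div_iff₀ (by positivity)] at this; exact this
      nlinarith [mul_le_mul_of_nonneg_right h3 he.le]
  rw [intervalIntegral.integral_const_mul, intervalIntegral.integral_sub hE hA, h1] at h2
  have e1 : 0 ≤ (R - s) * Real.exp (φ R) := mul_nonneg (by linarith) (Real.exp_pos _).le
  have e2 : (b - s) * Real.exp (φ b) ≤ 0 := mul_nonpos_of_nonpos_of_nonneg (by linarith) (Real.exp_pos _).le
  nlinarith

/-- The inequality on a finite interval, with the weight `σ - y`. -/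
theorem mom_fin1 (ht : 0 < t) (hyb : y ≤ b) (hbs : b ≤ s) (hφ : ∀ σ, b ≤ σ → HasDerivAt φ (φ' σ) σ)
    (hc : ContinuousOn φ' (Ici b))
    (hconc : ∀ σ, b ≤ σ → φ' σ * (σ - s) ≤ -(σ - s) ^ 2 / (4 * t)) {R : ℝ} (hR : s ≤ R) :
    ∫ σ in b..R, (σ - y) * (σ - s) ^ 2 * Real.exp (φ σ) ≤
      8 * t * ∫ σ in b..R, (σ - y) * Real.exp (φ σ) := by
  have hbR : b ≤ R := hbs.trans hR
  have hφc : ContinuousOn φ (Icc b R) := fun σ hσ => (hφ σ hσ.1).continuousAt.continuousWithinAt
  have hec : ContinuousOn (fun σ => Real.exp (φ σ)) (Icc b R) := Real.continuous_exp.comp_continuousOn hφc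
  have hcR : ContinuousOn φ' (Icc b R) := hc.mono Icc_subset_Ici_self
  have hi : ∀ f : ℝ → ℝ, ContinuousOn f (Icc b R) → IntervalIntegrable f volume b R := fun f hf =>
    (by rw [← uIcc_of_le hbR] at hf; exact hf.intervalIntegrable)
  have hpoly : ContinuousOn (fun σ : ℝ => σ - s) (Icc b R) := by fun_prop
  have hpoly' : ContinuousOn (fun σ : ℝ => σ - y) (Icc b R) := by fun_prop
  have hA : IntervalIntegrable (fun σ => (2 * σ - y - s) * Real.exp (φ σ) +
      (σ - y) * (σ - s) * (Real.exp (φ σ) * φ' σ)) volume b R :=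
    hi _ (ContinuousOn.add (ContinuousOn.mul (by fun_prop) hec)
        ((hpoly'.mul hpoly).mul (hec.mul hcR)))
  have hE : IntervalIntegrable (fun σ => (σ - y) * Real.exp (φ σ)) volume b R := hi _ (hpoly'.mul hec)
  have h1 : ∫ σ in b..R, ((2 * σ - y - s) * Real.exp (φ σ) +
      (σ - y) * (σ - s) * (Real.exp (φ σ) * φ' σ)) =
      (R - y) * (R - s) * Real.exp (φ R) - (b - y) * (b - s) * Real.exp (φ b) := by
    apply intervalIntegral.integral_eq_sub_of_hasDerivAt
      (f := fun σ => (σ - y) * (σ - s) * Real.exp (φ σ))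
    · intro σ hσ
      rw [uIcc_of_le hbR] at hσ
      have e1 : HasDerivAt (fun σ : ℝ => σ - s) 1 σ := (hasDerivAt_id σ).sub_const s
      have e0 : HasDerivAt (fun σ : ℝ => σ - y) 1 σ := (hasDerivAt_id σ).sub_const y
      have e2 := (hφ σ hσ.1).exp
      have := (e0.mul e1).mul e2
      have e3 : (1 * (σ - s) + (σ - y) * 1) * Real.exp (φ σ) + (σ - y) * (σ - s) * (Real.exp (φ σ) * φ' σ) =
        (2 * σ - y - s) * Real.exp (φ σ) + (σ - y) * (σ - s) * (Real.exp (φ σ) * φ' σ) := by ring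
      rw [← e3]
      exact this
    · exact hA
  have h2 : ∫ σ in b..R, ((σ - y) * (σ - s) ^ 2 * Real.exp (φ σ)) ≤
      ∫ σ in b..R, ((8 * t) * ((σ - y) * Real.exp (φ σ)) -
        (4 * t) * ((2 * σ - y - s) * Real.exp (φ σ) + (σ - y) * (σ - s) * (Real.exp (φ σ) * φ' σ))) := by
    apply intervalIntegral.integral_mono_on hbR
    · exact hi _ ((hpoly'.mul (hpoly.pow 2)).mul hec)
    · exact (hE.const_mul _).sub (hA.const_mul _)
    · intro σ hσ
      have := hconc σ hσ.1
      have he := Real.exp_pos (φ σ)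
      have h3 : φ' σ * (σ - s) * (4 * t) ≤ -(σ - s) ^ 2 := by
        rw [le_div_iff₀ (by positivity)] at this; exact this
      have h4 : 0 ≤ σ - y := by linarith [hσ.1]
      have h5 : 0 ≤ (s - y) * (4 * t * Real.exp (φ σ)) := mul_nonneg (by linarith) (by positivity)
      have h6 := mul_le_mul_of_nonneg_left (mul_le_mul_of_nonneg_right h3 he.le) h4
      nlinarith
  rw [intervalIntegral.integral_sub (hE.const_mul _) (hA.const_mul _),
    intervalIntegral.integral_const_mul, intervalIntegral.integral_const_mul, h1] at h2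
  have e1 : 0 ≤ (R - y) * (R - s) * Real.exp (φ R) :=
    mul_nonneg (mul_nonneg (by linarith) (by linarith)) (Real.exp_pos _).le
  have e2 : (b - y) * (b - s) * Real.exp (φ b) ≤ 0 :=
    mul_nonpos_of_nonpos_of_nonneg (mul_nonpos_of_nonneg_of_nonpos (by linarith) (by linarith))
      (Real.exp_pos _).le
  nlinarith

/-- First moment inequality. -/
theorem mom_inf (ht : 0 < t) (hbs : b ≤ s) (hφ : ∀ σ, b ≤ σ → HasDerivAt φ (φ' σ) σ)
    (hc : ContinuousOn φ' (Ici b))
    (hconc : ∀ σ, b ≤ σ → φ' σ * (σ - s) ≤ -(σ - s) ^ 2 / (4 * t))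
    (hI : IntegrableOn (fun σ => Real.exp (φ σ)) (Ioi b))
    (hI2 : IntegrableOn (fun σ => (σ - s) ^ 2 * Real.exp (φ σ)) (Ioi b)) :
    ∫ σ in Ioi b, (σ - s) ^ 2 * Real.exp (φ σ) ≤ 4 * t * ∫ σ in Ioi b, Real.exp (φ σ) := by
  have h1 := intervalIntegral_tendsto_integral_Ioi b hI2 tendsto_id
  have h2 := (intervalIntegral_tendsto_integral_Ioi b hI tendsto_id).const_mul (4 * t)
  refine le_of_tendsto_of_tendsto h1 h2 ?_
  filter_upwards [eventually_ge_atTop s] with R hR
  exact mom_fin ht hbs hφ hc hconc hR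

/-- Second moment inequality. -/
theorem mom_inf1 (ht : 0 < t) (hyb : y ≤ b) (hbs : b ≤ s) (hφ : ∀ σ, b ≤ σ → HasDerivAt φ (φ' σ) σ)
    (hc : ContinuousOn φ' (Ici b))
    (hconc : ∀ σ, b ≤ σ → φ' σ * (σ - s) ≤ -(σ - s) ^ 2 / (4 * t))
    (hI : IntegrableOn (fun σ => (σ - y) * Real.exp (φ σ)) (Ioi b))
    (hI2 : IntegrableOn (fun σ => (σ - y) * (σ - s) ^ 2 * Real.exp (φ σ)) (Ioi b)) :
    ∫ σ in Ioi b, (σ - y) * (σ - s) ^ 2 * Real.exp (φ σ) ≤
      8 * t * ∫ σ in Ioi b, (σ - y) * Real.exp (φ σ) := by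
  have h1 := intervalIntegral_tendsto_integral_Ioi b hI2 tendsto_id
  have h2 := (intervalIntegral_tendsto_integral_Ioi b hI tendsto_id).const_mul (8 * t)
  refine le_of_tendsto_of_tendsto h1 h2 ?_
  filter_upwards [eventually_ge_atTop s] with R hR
  exact mom_fin1 ht hyb hbs hφ hc hconc hR

/-- A density `q ≥ 0` and a phase `θ` with `|θ| ≤ B |σ - s|`: the integral of `q exp (i θ)` is close
to the integral of `q` if the second moment is at most `κ t`. -/
theorem phase_bound {q θ : ℝ → ℝ} {B κ : ℝ} (ht : 0 < t) (hB : 0 ≤ B) (hq : ∀ σ ∈ Ioi b, 0 ≤ q σ)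
    (hθ : ∀ σ ∈ Ioi b, |θ σ| ≤ B * |σ - s|) (hθm : AEStronglyMeasurable θ (volume.restrict (Ioi b)))
    (hI : IntegrableOn q (Ioi b)) (hI2 : IntegrableOn (fun σ => (σ - s) ^ 2 * q σ) (Ioi b))
    (hm : ∫ σ in Ioi b, (σ - s) ^ 2 * q σ ≤ κ * t * ∫ σ in Ioi b, q σ) :
    (1 - B ^ 2 * κ * t / 2) * (∫ σ in Ioi b, q σ) ≤
        (∫ σ in Ioi b, (q σ : ℂ) * Complex.exp (θ σ * Complex.I)).re ∧
      |(∫ σ in Ioi b, (q σ : ℂ) * Complex.exp (θ σ * Complex.I)).im| ≤
        B * Real.sqrt t * (1 + κ) / 2 * ∫ σ in Ioi b, q σ := by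
  have hmeas : AEStronglyMeasurable (fun σ => Complex.exp (θ σ * Complex.I)) (volume.restrict (Ioi b)) := by
    refine Complex.continuous_exp.comp_aestronglyMeasurable ?_
    exact (Complex.continuous_ofReal.comp_aestronglyMeasurable hθm).mul_const _
  have hIc : IntegrableOn (fun σ => (q σ : ℂ) * Complex.exp (θ σ * Complex.I)) (Ioi b) := by
    refine Integrable.mul_bdd (c := 1) hI.ofReal hmeas ?_
    filter_upwards with σ
    rw [Complex.norm_exp_ofReal_mul_I]
  have hre : ∀ σ, ((q σ : ℂ) * Complex.exp (θ σ * Complex.I)).re = q σ * Real.cos (θ σ) := by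
    intro σ
    rw [Complex.re_ofReal_mul, Complex.exp_ofReal_mul_I_re]
  have him : ∀ σ, ((q σ : ℂ) * Complex.exp (θ σ * Complex.I)).im = q σ * Real.sin (θ σ) := by
    intro σ
    rw [Complex.im_ofReal_mul, Complex.exp_ofReal_mul_I_im]
  have e1 : (∫ σ in Ioi b, (q σ : ℂ) * Complex.exp (θ σ * Complex.I)).re =
      ∫ σ in Ioi b, q σ * Real.cos (θ σ) := by
    rw [← Complex.reCLM_apply, ← ContinuousLinearMap.integral_comp_comm _ hIc]
    exact integral_congr_ae (Eventually.of_forall fun σ => by simp [hre])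
  have e2 : (∫ σ in Ioi b, (q σ : ℂ) * Complex.exp (θ σ * Complex.I)).im =
      ∫ σ in Ioi b, q σ * Real.sin (θ σ) := by
    rw [← Complex.imCLM_apply, ← ContinuousLinearMap.integral_comp_comm _ hIc]
    exact integral_congr_ae (Eventually.of_forall fun σ => by simp [him])
  have hIre : IntegrableOn (fun σ => q σ * Real.cos (θ σ)) (Ioi b) := by
    have := hIc.re
    refine this.congr (Eventually.of_forall fun σ => ?_)
    simp
  have hIim : IntegrableOn (fun σ => q σ * Real.sin (θ σ)) (Ioi b) := by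
    have := hIc.im
    refine this.congr (Eventually.of_forall fun σ => ?_)
    simp
  constructor
  · rw [e1]
    have h1 : ∫ σ in Ioi b, (q σ - B ^ 2 / 2 * ((σ - s) ^ 2 * q σ)) ≤ ∫ σ in Ioi b, q σ * Real.cos (θ σ) := by
      apply setIntegral_mono_on (hI.sub (hI2.const_mul _)) hIre measurableSet_Ioi
      intro σ hσ
      simp only [Pi.sub_apply]
      have h2 := Real.one_sub_sq_div_two_le_cos (x := θ σ)
      have h3 : θ σ ^ 2 ≤ B ^ 2 * (σ - s) ^ 2 := by
        have := pow_le_pow_left₀ (abs_nonneg _) (hθ σ hσ) 2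
        rwa [sq_abs, mul_pow, sq_abs] at this
      nlinarith [hq σ hσ, mul_le_mul_of_nonneg_left h2 (hq σ hσ), mul_le_mul_of_nonneg_left h3 (hq σ hσ)]
    rw [integral_sub hI (hI2.const_mul _), integral_const_mul] at h1
    have h4 := mul_le_mul_of_nonneg_left hm (by positivity : 0 ≤ B ^ 2 / 2)
    nlinarith
  · rw [e2]
    have hst : 0 < Real.sqrt t := Real.sqrt_pos.2 ht
    have hst2 : Real.sqrt t ^ 2 = t := Real.sq_sqrt ht.le
    have h1 : |∫ σ in Ioi b, q σ * Real.sin (θ σ)| ≤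
        ∫ σ in Ioi b, (B * Real.sqrt t / 2 * q σ + B / (2 * Real.sqrt t) * ((σ - s) ^ 2 * q σ)) := by
      rw [← Real.norm_eq_abs]
      refine norm_integral_le_of_norm_le ((hI.const_mul _).add (hI2.const_mul _)) ?_
      filter_upwards [ae_restrict_mem measurableSet_Ioi] with σ hσ
      rw [Real.norm_eq_abs, abs_mul, abs_of_nonneg (hq σ hσ)]
      have h2 : |Real.sin (θ σ)| ≤ B * |σ - s| := (Real.abs_sin_le_abs).trans (hθ σ hσ)
      have h3 : |σ - s| ≤ Real.sqrt t / 2 + 1 / (2 * Real.sqrt t) * (σ - s) ^ 2 := by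
        have h5 : |σ - s| = Real.sqrt t / 2 + 1 / (2 * Real.sqrt t) * (σ - s) ^ 2 -
            1 / (2 * Real.sqrt t) * (|σ - s| - Real.sqrt t) ^ 2 := by
          field_simp
          rw [← sq_abs (σ - s)]
          ring
        have h6 : 0 ≤ 1 / (2 * Real.sqrt t) * (|σ - s| - Real.sqrt t) ^ 2 := by positivity
        linarith
      have h7 : |Real.sin (θ σ)| ≤ B * (Real.sqrt t / 2 + 1 / (2 * Real.sqrt t) * (σ - s) ^ 2) :=
        h2.trans (mul_le_mul_of_nonneg_left h3 hB)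
      calc q σ * |Real.sin (θ σ)| ≤ q σ * (B * (Real.sqrt t / 2 + 1 / (2 * Real.sqrt t) * (σ - s) ^ 2)) :=
            mul_le_mul_of_nonneg_left h7 (hq σ hσ)
        _ = B * Real.sqrt t / 2 * q σ + B / (2 * Real.sqrt t) * ((σ - s) ^ 2 * q σ) := by ring
    rw [integral_add (hI.const_mul _) (hI2.const_mul _), integral_const_mul, integral_const_mul] at h1
    refine h1.trans ?_
    have h8 := mul_le_mul_of_nonneg_left hm (by positivity : 0 ≤ B / (2 * Real.sqrt t))
    have h9 : B / (2 * Real.sqrt t) * (κ * t * ∫ σ in Ioi b, q σ) =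
        B * Real.sqrt t * κ / 2 * ∫ σ in Ioi b, q σ := by
      nth_rewrite 2 [← hst2]
      field_simp
    rw [h9] at h8
    linarith

end Pool.Agent.KS6_29.HF
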